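import Mathlib

/-! The Frankl-Wilson bound for sign vectors of length `124` (prime `31`). This part is taken from
the proof of S05728 by helper933. -/

set_option autoImplicit false

namespace Pool.Agent.Helper822.FranklWilson

open Finset

/-- sign of a bit -/
def sg (R : Type) [Ring R] (b : Bool) : R := if b then -1 else 1

theorem sg_mul_self (R : Type) [Ring R] (b : Bool) : sg R b * sg R b = 1 := by
  cases b <;> simp [sg]

/-- character -/
def chi {n : ℕ} (p : ℕ) (A : Finset (Fin n)) : (Fin n → Bool) → ZMod p :=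
  fun y => ∏ i ∈ A, sg (ZMod p) (y i)

theorem chi_mul {n : ℕ} (p : ℕ) (A B : Finset (Fin n)) :
    chi p A * chi p B = chi p (symmDiff A B) := by
  classical
  funext y
  simp only [Pi.mul_apply, chi]
  have hA : ∏ i ∈ A, sg (ZMod p) (y i) = (∏ i ∈ A \ B, sg (ZMod p) (y i)) * ∏ i ∈ A ∩ B, sg (ZMod p) (y i) := by
    rw [← Finset.prod_union]
    · congr 1
      rw [Finset.sdiff_union_inter]
    · exact Finset.disjoint_sdiff_inter A B
  have hB : ∏ i ∈ B, sg (ZMod p) (y i) = (∏ i ∈ B \ A, sg (ZMod p) (y i)) * ∏ i ∈ A ∩ B, sg (ZMod p) (y i) := by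
    rw [Finset.inter_comm A B, ← Finset.prod_union]
    · congr 1
      rw [Finset.sdiff_union_inter]
    · exact Finset.disjoint_sdiff_inter B A
  have hsq : (∏ i ∈ A ∩ B, sg (ZMod p) (y i)) * (∏ i ∈ A ∩ B, sg (ZMod p) (y i)) = 1 := by
    rw [← Finset.prod_mul_distrib]
    exact Finset.prod_eq_one (fun i _ => sg_mul_self _ _)
  have hS : ∏ i ∈ symmDiff A B, sg (ZMod p) (y i) = (∏ i ∈ A \ B, sg (ZMod p) (y i)) * ∏ i ∈ B \ A, sg (ZMod p) (y i) := by
    rw [symmDiff_def, Finset.sup_eq_union, Finset.prod_union]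
    exact disjoint_sdiff_sdiff
  rw [hA, hB, hS]
  linear_combination ((∏ i ∈ A \ B, sg (ZMod p) (y i)) * (∏ i ∈ B \ A, sg (ZMod p) (y i))) * hsq

/-- span of the characters of degree at most t -/
def Vt (n p t : ℕ) : Submodule (ZMod p) ((Fin n → Bool) → ZMod p) :=
  Submodule.span (ZMod p) {f | ∃ A : Finset (Fin n), A.card ≤ t ∧ f = chi p A}

theorem Vt_mul {n p s t : ℕ} {f g : (Fin n → Bool) → ZMod p} (hf : f ∈ Vt n p s)
    (hg : g ∈ Vt n p t) : f * g ∈ Vt n p (s + t) := by
  classical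
  have h := Submodule.mul_mem_mul hf hg
  unfold Vt at h
  rw [Submodule.span_mul_span] at h
  refine Submodule.span_mono ?_ h
  rintro _ ⟨_, ⟨A, hA, rfl⟩, _, ⟨B, hB, rfl⟩, rfl⟩
  refine ⟨symmDiff A B, ?_, chi_mul p A B⟩
  calc (symmDiff A B).card ≤ (A ∪ B).card := Finset.card_le_card (by
        intro x hx
        simp only [Finset.mem_symmDiff] at hx
        simp only [Finset.mem_union]
        tauto)
    _ ≤ A.card + B.card := Finset.card_union_le A B
    _ ≤ s + t := by omega

theorem Vt_mono {n p s t : ℕ} (h : s ≤ t) : Vt n p s ≤ Vt n p t := by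
  refine Submodule.span_mono ?_
  rintro _ ⟨A, hA, rfl⟩
  exact ⟨A, hA.trans h, rfl⟩

theorem one_mem_Vt (n p t : ℕ) : (1 : (Fin n → Bool) → ZMod p) ∈ Vt n p t := by
  refine Submodule.subset_span ⟨∅, by simp, ?_⟩
  funext y
  simp [chi]

theorem prod_mem_Vt {n p : ℕ} {ι : Type} (S : Finset ι) (f : ι → (Fin n → Bool) → ZMod p)
    (hf : ∀ i ∈ S, f i ∈ Vt n p 1) : ∏ i ∈ S, f i ∈ Vt n p S.card := by
  classical
  induction S using Finset.induction_on with
  | empty => simpa using one_mem_Vt n p 0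
  | insert a S ha ih =>
    rw [Finset.prod_insert ha, Finset.card_insert_of_notMem ha, add_comm]
    exact Vt_mul (hf a (Finset.mem_insert_self _ _)) (ih (fun i hi => hf i (Finset.mem_insert_of_mem hi)))

/-- integer inner product of sign vectors -/
def ip {n : ℕ} (R : Type) [Ring R] (x y : Fin n → Bool) : R := ∑ i, sg R (x i) * sg R (y i)

theorem ip_mem_Vt {n p : ℕ} (x : Fin n → Bool) : (fun y => ip (ZMod p) x y) ∈ Vt n p 1 := by
  have : (fun y => ip (ZMod p) x y) = ∑ i, (sg (ZMod p) (x i)) • chi p {i} := by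
    funext y
    simp [ip, chi, Finset.sum_apply]
  rw [this]
  refine Submodule.sum_mem _ (fun i _ => Submodule.smul_mem _ _ (Submodule.subset_span ⟨{i}, by simp, rfl⟩))

/-- the Frankl–Wilson polynomial -/
def FW {n : ℕ} (p : ℕ) (x : Fin n → Bool) : (Fin n → Bool) → ZMod p :=
  ∏ j ∈ Finset.Ico 1 p, ((fun y => ip (ZMod p) x y) - fun _ => (j : ZMod p))

theorem FW_mem {n p : ℕ} (x : Fin n → Bool) : FW p x ∈ Vt n p (p - 1) := by
  have h := prod_mem_Vt (n := n) (p := p) (Finset.Ico 1 p)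
    (fun j => (fun y => ip (ZMod p) x y) - fun _ => ((j : ℕ) : ZMod p)) (by
      intro j _
      refine Submodule.sub_mem _ (ip_mem_Vt x) ?_
      have : (fun _ : Fin n → Bool => ((j : ℕ) : ZMod p)) = ((j : ℕ) : ZMod p) • (1 : (Fin n → Bool) → ZMod p) := by
        funext y; simp
      rw [this]
      exact Submodule.smul_mem _ _ (one_mem_Vt n p 1))
  simpa [FW] using h

theorem FW_apply {n p : ℕ} (x y : Fin n → Bool) :
    FW p x y = ∏ j ∈ Finset.Ico 1 p, (ip (ZMod p) x y - (j : ZMod p)) := by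
  simp [FW, Finset.prod_apply]

theorem FW_eq_zero {n p : ℕ} [Fact p.Prime] {x y : Fin n → Bool} (h : ip (ZMod p) x y ≠ 0) :
    FW p x y = 0 := by
  rw [FW_apply]
  refine Finset.prod_eq_zero (i := (ip (ZMod p) x y).val) ?_ ?_
  · rw [Finset.mem_Ico]
    refine ⟨?_, ZMod.val_lt _⟩
    have : (ip (ZMod p) x y).val ≠ 0 := by
      intro h0
      exact h ((ZMod.val_eq_zero _).1 h0)
    omega
  · simp

theorem FW_ne_zero {n p : ℕ} [Fact p.Prime] {x y : Fin n → Bool} (h : ip (ZMod p) x y = 0) :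
    FW p x y ≠ 0 := by
  rw [FW_apply, h]
  refine Finset.prod_ne_zero_iff.2 ?_
  intro j hj
  rw [Finset.mem_Ico] at hj
  rw [zero_sub, neg_ne_zero]
  intro h0
  rw [ZMod.natCast_eq_zero_iff] at h0
  exact absurd (Nat.le_of_dvd (by omega) h0) (by omega)

theorem FW_bound {n p : ℕ} [Fact p.Prime] {ι : Type} [Fintype ι] (x : ι → Fin n → Bool)
    (h0 : ∀ i, ip (ZMod p) (x i) (x i) = 0) (h1 : ∀ i j, i ≠ j → ip (ZMod p) (x i) (x j) ≠ 0) :
    Fintype.card ι ≤ ∑ k ∈ Finset.range p, n.choose k := by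
  classical
  have hli : LinearIndependent (ZMod p) (fun i => FW p (x i)) := by
    rw [linearIndependent_iff']
    intro s g hg i hi
    have h2 := congrFun hg (x i)
    rw [Finset.sum_apply, Finset.sum_eq_single i] at h2
    · simp only [Pi.smul_apply, smul_eq_mul, Pi.zero_apply, mul_eq_zero] at h2
      rcases h2 with h2 | h2
      · exact h2
      · exact absurd h2 (FW_ne_zero (h0 i))
    · intro j _ hji
      simp only [Pi.smul_apply, smul_eq_mul]
      rw [FW_eq_zero (h1 j i hji), mul_zero]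
    · intro h; exact absurd hi h
  have hT : ({f | ∃ A : Finset (Fin n), A.card ≤ p - 1 ∧ f = chi p A} : Set ((Fin n → Bool) → ZMod p))
      = ((Finset.univ.filter (fun A : Finset (Fin n) => A.card ≤ p - 1)).image (chi p) : Finset _) := by
    ext f
    simp only [Set.mem_ofPred_eq, Finset.coe_image, Finset.coe_filter, Finset.mem_univ, true_and, Set.mem_image]
    constructor
    · rintro ⟨A, hA, rfl⟩; exact ⟨A, hA, rfl⟩
    · rintro ⟨A, hA, rfl⟩; exact ⟨A, hA, rfl⟩
  have hle := linearIndependent_le_span' (fun i => FW p (x i)) hli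
    (((Finset.univ.filter (fun A : Finset (Fin n) => A.card ≤ p - 1)).image (chi p) : Finset _) : Set ((Fin n → Bool) → ZMod p)) (by
      rintro _ ⟨i, rfl⟩
      have := FW_mem (p := p) (x i)
      unfold Vt at this
      rw [hT] at this
      exact this)
  simp only [Cardinal.mk_fintype, Fintype.card_coe, Nat.cast_le, Finset.coe_sort_coe] at hle
  have hpos : 1 ≤ p := (Fact.out : p.Prime).one_lt.le
  calc Fintype.card ι ≤ ((Finset.univ.filter (fun A : Finset (Fin n) => A.card ≤ p - 1)).image (chi p)).card := hle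
    _ ≤ (Finset.univ.filter (fun A : Finset (Fin n) => A.card ≤ p - 1)).card := Finset.card_image_le
    _ ≤ ((Finset.range p).biUnion (fun k => Finset.powersetCard k (Finset.univ : Finset (Fin n)))).card := by
        refine Finset.card_le_card ?_
        intro A hA
        simp only [Finset.mem_filter, Finset.mem_univ, true_and] at hA
        simp only [Finset.mem_biUnion, Finset.mem_range, Finset.mem_powersetCard]
        exact ⟨A.card, by omega, Finset.subset_univ _, rfl⟩
    _ ≤ ∑ k ∈ Finset.range p, (Finset.powersetCard k (Finset.univ : Finset (Fin n))).card := Finset.card_biUnion_le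
    _ = ∑ k ∈ Finset.range p, n.choose k := by simp

/-- A sum of signs modulo four. -/
theorem sum_sign_mod {ι : Type} [DecidableEq ι] (S : Finset ι) (e : ι → ℤ)
    (he : ∀ i, e i = 1 ∨ e i = -1) :
    (4 : ℤ) ∣ (∑ i ∈ S, e i) - (S.card - 1 + ∏ i ∈ S, e i) ∧
      (∏ i ∈ S, e i = 1 ∨ ∏ i ∈ S, e i = -1) := by
  induction S using Finset.induction_on with
  | empty => simp
  | insert a S ha ih =>
    obtain ⟨⟨k, hk⟩, ih2⟩ := ih
    rw [Finset.sum_insert ha, Finset.prod_insert ha, Finset.card_insert_of_notMem ha]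
    push_cast
    rcases he a with h | h <;> rcases ih2 with h2 | h2 <;> rw [h2] at hk ⊢ <;> rw [h]
    · exact ⟨⟨k, by linarith⟩, by norm_num⟩
    · exact ⟨⟨k, by linarith⟩, by norm_num⟩
    · exact ⟨⟨k, by linarith⟩, by norm_num⟩
    · exact ⟨⟨k - 1, by linarith⟩, by norm_num⟩

theorem sg_int (b : Bool) : sg ℤ b = 1 ∨ sg ℤ b = -1 := by
  cases b <;> simp [sg]

theorem sg_int_inj {b c : Bool} (h : sg ℤ b = sg ℤ c) : b = c := by
  cases b <;> cases c <;> simp [sg] at h ⊢

/-- parity bit -/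
def par {k : ℕ} (z : Fin k → Bool) : Bool := decide (∏ i, sg ℤ (z i) = -1)

theorem sg_par {k : ℕ} (z : Fin k → Bool) : sg ℤ (par z) = ∏ i, sg ℤ (z i) := by
  have h := (sum_sign_mod Finset.univ (fun i => sg ℤ (z i)) (fun i => sg_int _)).2
  unfold par
  rcases h with h | h
  · rw [h]; simp [sg]
  · rw [h]; simp [sg]

/-- the extension of a sign vector -/
def ext {k : ℕ} (z : Fin k → Bool) : Fin (k + 2) → Bool :=
  Fin.cons false (Fin.cons (par z) z : Fin (k + 1) → Bool)

theorem ext_prod {k : ℕ} (z : Fin k → Bool) : ∏ i, sg ℤ (ext z i) = 1 := by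
  rw [Fin.prod_univ_succ]
  simp only [ext, Fin.cons_zero, Fin.cons_succ]
  rw [Fin.prod_univ_succ]
  simp only [Fin.cons_zero, Fin.cons_succ]
  rw [← sg_par, sg_mul_self]
  simp [sg]

theorem ip_ext_mod {k : ℕ} (z w : Fin k → Bool) (hk : 4 ∣ k + 2) : (4 : ℤ) ∣ ip ℤ (ext z) (ext w) := by
  have h := (sum_sign_mod Finset.univ (fun i => sg ℤ (ext z i) * sg ℤ (ext w i)) (fun i => by
    rcases sg_int (ext z i) with h | h <;> rcases sg_int (ext w i) with h' | h' <;> rw [h, h'] <;> norm_num)).1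
  rw [Finset.prod_mul_distrib, ext_prod, ext_prod] at h
  have h2 : (4 : ℤ) ∣ ((k + 2 : ℕ) : ℤ) := by exact_mod_cast hk
  have h3 : ip ℤ (ext z) (ext w) = ((∑ i, sg ℤ (ext z i) * sg ℤ (ext w i)) - ((Finset.univ : Finset (Fin (k+2))).card - 1 + 1 * 1)) + ((k + 2 : ℕ) : ℤ) := by
    simp [ip]
  rw [h3]
  exact dvd_add h h2

theorem ip_ext_lt {k : ℕ} (z w : Fin k → Bool) (hzw : z ≠ w) :
    ip ℤ (ext z) (ext w) < (k + 2 : ℕ) ∧ -((k + 2 : ℕ) : ℤ) < ip ℤ (ext z) (ext w) := by
  obtain ⟨j, hj⟩ := Function.ne_iff.1 hzw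
  constructor
  · have h1 : sg ℤ (ext z j.succ.succ) * sg ℤ (ext w j.succ.succ) = -1 := by
      simp only [ext, Fin.cons_succ]
      rcases sg_int (z j) with h | h <;> rcases sg_int (w j) with h' | h'
      · exact absurd (sg_int_inj (h.trans h'.symm)) hj
      · rw [h, h']; norm_num
      · rw [h, h']; norm_num
      · exact absurd (sg_int_inj (h.trans h'.symm)) hj
    have h2 : (2 : ℤ) ≤ ∑ i, (1 - sg ℤ (ext z i) * sg ℤ (ext w i)) := by
      have := Finset.single_le_sum (f := fun i => 1 - sg ℤ (ext z i) * sg ℤ (ext w i)) (s := Finset.univ) (fun i _ => by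
        rcases sg_int (ext z i) with h | h <;> rcases sg_int (ext w i) with h' | h' <;> rw [h, h'] <;> norm_num) (Finset.mem_univ j.succ.succ)
      simp only [h1] at this
      linarith
    rw [Finset.sum_sub_distrib] at h2
    simp only [Finset.sum_const, Finset.card_univ, Fintype.card_fin, nsmul_eq_mul, mul_one] at h2
    unfold ip
    linarith
  · have h1 : sg ℤ (ext z 0) * sg ℤ (ext w 0) = 1 := by
      simp [ext, sg]
    have h2 : (2 : ℤ) ≤ ∑ i, (1 + sg ℤ (ext z i) * sg ℤ (ext w i)) := by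
      have := Finset.single_le_sum (f := fun i => 1 + sg ℤ (ext z i) * sg ℤ (ext w i)) (s := Finset.univ) (fun i _ => by
        rcases sg_int (ext z i) with h | h <;> rcases sg_int (ext w i) with h' | h' <;> rw [h, h'] <;> norm_num) (Finset.mem_univ 0)
      simp only [h1] at this
      linarith
    rw [Finset.sum_add_distrib] at h2
    simp only [Finset.sum_const, Finset.card_univ, Fintype.card_fin, nsmul_eq_mul, mul_one] at h2
    unfold ip
    linarith

theorem ip_cast {n : ℕ} (R : Type) [Ring R] (x y : Fin n → Bool) : ip R x y = ((ip ℤ x y : ℤ) : R) := by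
  unfold ip
  push_cast
  refine Finset.sum_congr rfl (fun i _ => ?_)
  cases x i <;> cases y i <;> simp [sg]

/-- If the inner product vanishes modulo 31 then it vanishes. -/
theorem ip_ext_zero {z w : Fin 122 → Bool} (hzw : z ≠ w) (h : ip (ZMod 31) (ext z) (ext w) = 0) :
    ip ℤ (ext z) (ext w) = 0 := by
  have h4 := ip_ext_mod z w (by norm_num)
  obtain ⟨h1, h2⟩ := ip_ext_lt z w hzw
  rw [ip_cast, ZMod.intCast_zmod_eq_zero_iff_dvd] at h
  push_cast at h h1 h2
  omega

theorem ip_self_zero (z : Fin 122 → Bool) : ip (ZMod 31) (ext z) (ext z) = 0 := by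
  unfold ip
  simp only [sg_mul_self, Finset.sum_const, Finset.card_univ, Fintype.card_fin]
  rw [nsmul_eq_mul, mul_one, ZMod.natCast_eq_zero_iff]
  norm_num

theorem num : 2*(2*(124*(124*124))) * ∑ k ∈ Finset.range 31, (124 : ℕ).choose k < 2^122 := by
  simp_rw [Nat.choose_eq_descFactorial_div_factorial]
  decide +kernel

instance f31 : Fact (Nat.Prime 31) := ⟨by norm_num⟩

end Pool.Agent.Helper822.FranklWilson
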