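import Mathlib
set_option autoImplicit false
namespace Pool.Agent.Helper822.Sphere
open Set Filter Topology


/-- Values of the perturbation data on 3-subsets of `{1,…,6}`, indexed by binary codes. -/
def tab (c : ℕ) : ℤ :=
  if c = 112 then -1 else if c = 14 then 1 else if c = 44 then 1 else if c = 22 then -1
  else if c = 50 then 2 else if c = 76 then -2 else if c = 104 then 1 else if c = 52 then -1
  else if c = 74 then 1 else if c = 82 then -1 else if c = 84 then 2 else if c = 42 then -2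
  else 0

/-- The perturbation data. -/
def tau (C : Finset (Fin 7)) (i : Fin 7) : ℤ := tab (∑ c ∈ C, 2 ^ (c - i).val)

/-- Coefficients attached to a 3-set `A`, an index `k` outside `A` and an index `l` in `A`. -/
def P (A : Finset (Fin 7)) (k l : Fin 7) : ℤ := tau (Aᶜ.erase k) l

/-- All relations between the coefficients that are needed. -/
def Cond (a1 a2 a3 b1 b2 b3 j : Fin 7) : Prop :=
  (P {a1, a2, a3} b1 a1 + P {a1, a2, a3} b2 a1 + P {a1, a2, a3} b3 a1 + P {a1, a2, a3} j a1 = 0 ∧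
   P {a1, a2, a3} b1 a2 + P {a1, a2, a3} b2 a2 + P {a1, a2, a3} b3 a2 + P {a1, a2, a3} j a2 = 0 ∧
   P {a1, a2, a3} b1 a3 + P {a1, a2, a3} b2 a3 + P {a1, a2, a3} b3 a3 + P {a1, a2, a3} j a3 = 0) ∧
  (P {b1, b2, b3} a1 b1 + P {b1, b2, b3} a2 b1 + P {b1, b2, b3} a3 b1 + P {b1, b2, b3} j b1 = 0 ∧
   P {b1, b2, b3} a1 b2 + P {b1, b2, b3} a2 b2 + P {b1, b2, b3} a3 b2 + P {b1, b2, b3} j b2 = 0 ∧
   P {b1, b2, b3} a1 b3 + P {b1, b2, b3} a2 b3 + P {b1, b2, b3} a3 b3 + P {b1, b2, b3} j b3 = 0) ∧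
  ((P {b1, b2, b3} a1 b1 + P {a1, a2, a3} b1 a1) + (P {b1, b2, b3} a1 b2 + P {a1, a2, a3} b2 a1)
      + (P {b1, b2, b3} a1 b3 + P {a1, a2, a3} b3 a1) = 0 ∧
   (P {b1, b2, b3} a2 b1 + P {a1, a2, a3} b1 a2) + (P {b1, b2, b3} a2 b2 + P {a1, a2, a3} b2 a2)
      + (P {b1, b2, b3} a2 b3 + P {a1, a2, a3} b3 a2) = 0 ∧
   (P {b1, b2, b3} a3 b1 + P {a1, a2, a3} b1 a3) + (P {b1, b2, b3} a3 b2 + P {a1, a2, a3} b2 a3)
      + (P {b1, b2, b3} a3 b3 + P {a1, a2, a3} b3 a3) = 0) ∧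
  ((P {b1, b2, b3} a1 b1 + P {a1, a2, a3} b1 a1) + (P {b1, b2, b3} a2 b1 + P {a1, a2, a3} b1 a2)
      + (P {b1, b2, b3} a3 b1 + P {a1, a2, a3} b1 a3) = 0 ∧
   (P {b1, b2, b3} a1 b2 + P {a1, a2, a3} b2 a1) + (P {b1, b2, b3} a2 b2 + P {a1, a2, a3} b2 a2)
      + (P {b1, b2, b3} a3 b2 + P {a1, a2, a3} b2 a3) = 0 ∧
   (P {b1, b2, b3} a1 b3 + P {a1, a2, a3} b3 a1) + (P {b1, b2, b3} a2 b3 + P {a1, a2, a3} b3 a2)
      + (P {b1, b2, b3} a3 b3 + P {a1, a2, a3} b3 a3) = 0) ∧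
  ¬ ((3 * (P {a1, a2, a3} b1 a1 + P {a1, a2, a3} b1 a2 + P {a1, a2, a3} b1 a3) +
        (P {a1, a2, a3} j a1 + P {a1, a2, a3} j a2 + P {a1, a2, a3} j a3) = 0 ∧
      3 * (P {a1, a2, a3} b2 a1 + P {a1, a2, a3} b2 a2 + P {a1, a2, a3} b2 a3) +
        (P {a1, a2, a3} j a1 + P {a1, a2, a3} j a2 + P {a1, a2, a3} j a3) = 0 ∧
      3 * (P {a1, a2, a3} b3 a1 + P {a1, a2, a3} b3 a2 + P {a1, a2, a3} b3 a3) +
        (P {a1, a2, a3} j a1 + P {a1, a2, a3} j a2 + P {a1, a2, a3} j a3) = 0) ∧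
     (3 * (P {b1, b2, b3} a1 b1 + P {b1, b2, b3} a1 b2 + P {b1, b2, b3} a1 b3) +
        (P {b1, b2, b3} j b1 + P {b1, b2, b3} j b2 + P {b1, b2, b3} j b3) = 0 ∧
      3 * (P {b1, b2, b3} a2 b1 + P {b1, b2, b3} a2 b2 + P {b1, b2, b3} a2 b3) +
        (P {b1, b2, b3} j b1 + P {b1, b2, b3} j b2 + P {b1, b2, b3} j b3) = 0 ∧
      3 * (P {b1, b2, b3} a3 b1 + P {b1, b2, b3} a3 b2 + P {b1, b2, b3} a3 b3) +
        (P {b1, b2, b3} j b1 + P {b1, b2, b3} j b2 + P {b1, b2, b3} j b3) = 0))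

instance (a1 a2 a3 b1 b2 b3 j : Fin 7) : Decidable (Cond a1 a2 a3 b1 b2 b3 j) := by
  unfold Cond; infer_instance

/-- Stage one of the finite check. -/
def Check3 (a1 a2 a3 b1 b2 b3 : Fin 7) : Prop :=
  ∀ j : Fin 7, (j ≠ a1 ∧ j ≠ a2 ∧ j ≠ a3 ∧ j ≠ b1 ∧ j ≠ b2 ∧ j ≠ b3) → Cond a1 a2 a3 b1 b2 b3 j

instance (a1 a2 a3 b1 b2 b3 : Fin 7) : Decidable (Check3 a1 a2 a3 b1 b2 b3) := by
  unfold Check3; infer_instance

/-- Stage two of the finite check. -/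
def Check2 (a1 a2 a3 : Fin 7) : Prop :=
  ∀ b1 b2 b3 : Fin 7, (b1 < b2 ∧ b2 < b3 ∧ b1 ≠ a1 ∧ b1 ≠ a2 ∧ b1 ≠ a3 ∧ b2 ≠ a1 ∧ b2 ≠ a2 ∧
    b2 ≠ a3 ∧ b3 ≠ a1 ∧ b3 ≠ a2 ∧ b3 ≠ a3) → Check3 a1 a2 a3 b1 b2 b3

instance (a1 a2 a3 : Fin 7) : Decidable (Check2 a1 a2 a3) := by
  unfold Check2; infer_instance

lemma check_all : ∀ a1 a2 a3 : Fin 7, (a1 < a2 ∧ a2 < a3) → Check2 a1 a2 a3 := by
  decide +kernel

lemma tab_bound (c : ℕ) : |tab c| ≤ 2 := by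
  unfold tab
  split_ifs <;> norm_num

lemma P_bound (A : Finset (Fin 7)) (k l : Fin 7) : |P A k l| ≤ 2 := tab_bound _


/-! ### The cells -/

/-- The mean of the coordinates outside `A`. -/
noncomputable def mA (A : Finset (Fin 7)) (x : Fin 7 → ℝ) : ℝ := (∑ k ∈ Aᶜ, x k) / 4

/-- The perturbation of the coordinates used for points whose negative coordinates form `A`. -/
noncomputable def FF (A : Finset (Fin 7)) (x : Fin 7 → ℝ) (k : Fin 7) : ℝ :=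
  ∑ l ∈ A, (x l - mA A x) * (P A k l : ℝ)

/-- The size of the perturbation. -/
noncomputable def eps : ℝ := 1 / 100000000

/-- Cell `j`, first kind of points. -/
def Type1 (j : Fin 7) (x : Fin 7 → ℝ) : Prop :=
  ∃ A : Finset (Fin 7), A.card = 3 ∧ j ∉ A ∧ (∀ l, l ∈ A → x l ≤ 0) ∧ (∀ k, k ∉ A → 0 ≤ x k) ∧
    ∀ k, k ∉ A → x k + eps * FF A x k ≤ x j + eps * FF A x j

/-- Cell `j`, second kind of points. -/
def Type0 (j : Fin 7) (x : Fin 7 → ℝ) : Prop :=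
  (∀ A : Finset (Fin 7), A.card = 3 → (∃ l, l ∈ A ∧ 0 ≤ x l) ∨ (∃ k, k ∉ A ∧ x k ≤ 0)) ∧
    ∀ k, x k ≤ x j

lemma FF_bound {A : Finset (Fin 7)} (hA : A.card = 3) {x : Fin 7 → ℝ} (hx : ∀ i, |x i| ≤ 1)
    (k : Fin 7) : |FF A x k| ≤ 12 := by
  have hm : |mA A x| ≤ 1 := by
    unfold mA
    rw [abs_div]
    have h1 : |∑ k ∈ Aᶜ, x k| ≤ 4 := by
      calc |∑ k ∈ Aᶜ, x k| ≤ ∑ k ∈ Aᶜ, |x k| := Finset.abs_sum_le_sum_abs _ _
        _ ≤ ∑ k ∈ Aᶜ, (1 : ℝ) := Finset.sum_le_sum fun i _ => hx i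
        _ = 4 := by
          rw [Finset.sum_const, Finset.card_compl, hA]; norm_num
    have h2 : |(4 : ℝ)| = 4 := by norm_num
    rw [h2, div_le_one (by norm_num)]
    exact h1
  unfold FF
  calc |∑ l ∈ A, (x l - mA A x) * (P A k l : ℝ)|
      ≤ ∑ l ∈ A, |(x l - mA A x) * (P A k l : ℝ)| := Finset.abs_sum_le_sum_abs _ _
    _ ≤ ∑ l ∈ A, (4 : ℝ) := by
        apply Finset.sum_le_sum
        intro l _
        rw [abs_mul]
        have h1 : |x l - mA A x| ≤ 2 := by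
          have := abs_sub (x l) (mA A x)
          have := hx l
          linarith
        have h2 : |(P A k l : ℝ)| ≤ 2 := by
          have := P_bound A k l
          exact_mod_cast this
        have := abs_nonneg (x l - mA A x)
        nlinarith [abs_nonneg (P A k l : ℝ)]
    _ = 12 := by rw [Finset.sum_const, hA]; norm_num

lemma exists_sorted : ∀ A : Finset (Fin 7), A.card = 3 →
    ∃ a1 a2 a3 : Fin 7, a1 < a2 ∧ a2 < a3 ∧ A = {a1, a2, a3} := by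
  decide +kernel

lemma cell_approx {j : Fin 7} {x : Fin 7 → ℝ} (hx : ∀ i, |x i| ≤ 1) (h : Type1 j x ∨ Type0 j x) :
    ∀ i, x i ≤ x j + 1 / 1000000 := by
  intro i
  rcases h with ⟨A, hA, hjA, hneg, hpos, hmax⟩ | ⟨-, hmax⟩
  · by_cases hi : i ∈ A
    · have h1 := hneg i hi
      have h2 := hpos j hjA
      linarith
    · have h1 := hmax i hi
      have h2 := abs_le.1 (FF_bound hA hx i)
      have h3 := abs_le.1 (FF_bound hA hx j)
      unfold eps at h1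
      linarith [h2.1, h2.2, h3.1, h3.2]
  · linarith [hmax i]

/-- Points with the sign pattern of a critical point lie in the cell through the first kind. -/
lemma cell_pattern {j : Fin 7} {x : Fin 7 → ℝ} {A : Finset (Fin 7)} (hA : A.card = 3)
    (hneg : ∀ i, i ∈ A → x i < 0) (hpos : ∀ i, i ∉ A → 0 < x i) (h : Type1 j x ∨ Type0 j x) :
    ∀ k, k ∉ A → x k + eps * FF A x k ≤ x j + eps * FF A x j := by
  rcases h with ⟨A', hA', hjA', hneg', hpos', hmax⟩ | ⟨h1, -⟩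
  · have hsub : A ⊆ A' := by
      intro i hi
      by_contra hcon
      have h1 := hpos' i hcon
      have h2 := hneg i hi
      linarith
    have heq : A = A' := Finset.eq_of_subset_of_card_le hsub (by rw [hA, hA'])
    rw [heq]
    exact hmax
  · exfalso
    rcases h1 A hA with ⟨l, hl, hl'⟩ | ⟨k, hk, hk'⟩
    · linarith [hneg l hl]
    · linarith [hpos k hk]

lemma sum_seven {a1 a2 a3 b1 b2 b3 j : Fin 7} (hn : [a1, a2, a3, b1, b2, b3, j].Nodup)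
    (f : Fin 7 → ℝ) :
    ∑ i, f i = f a1 + f a2 + f a3 + f b1 + f b2 + f b3 + f j := by
  have huniv : (Finset.univ : Finset (Fin 7)) = [a1, a2, a3, b1, b2, b3, j].toFinset :=
    (Finset.eq_univ_of_card _ (by rw [List.toFinset_card_of_nodup hn]; simp)).symm
  rw [huniv, List.sum_toFinset f hn]
  simp
  ring

lemma mA_eq {a1 a2 a3 b1 b2 b3 j : Fin 7} (hn : [a1, a2, a3, b1, b2, b3, j].Nodup)
    (x : Fin 7 → ℝ) : mA {a1, a2, a3} x = (x b1 + x b2 + x b3 + x j) / 4 := by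
  have h1 := sum_seven hn x
  have h2 : ∑ i ∈ ({a1, a2, a3} : Finset (Fin 7)), x i + ∑ i ∈ ({a1, a2, a3} : Finset (Fin 7))ᶜ, x i
      = ∑ i, x i := Finset.sum_add_sum_compl _ _
  have h3 : ∑ i ∈ ({a1, a2, a3} : Finset (Fin 7)), x i = x a1 + x a2 + x a3 := by
    simp only [List.nodup_cons, List.mem_cons, not_or] at hn
    rw [Finset.sum_insert, Finset.sum_insert, Finset.sum_singleton]
    · ring
    · simpa using hn.2.1.1
    · simp [hn.1.1, hn.1.2.1]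
  unfold mA
  rw [h3, h1] at h2
  congr 1
  linarith

lemma FF_eq {a1 a2 a3 b1 b2 b3 j : Fin 7} (hn : [a1, a2, a3, b1, b2, b3, j].Nodup)
    (x : Fin 7 → ℝ) (k : Fin 7) : FF {a1, a2, a3} x k =
      (x a1 - (x b1 + x b2 + x b3 + x j) / 4) * (P {a1, a2, a3} k a1 : ℝ) +
      (x a2 - (x b1 + x b2 + x b3 + x j) / 4) * (P {a1, a2, a3} k a2 : ℝ) +
      (x a3 - (x b1 + x b2 + x b3 + x j) / 4) * (P {a1, a2, a3} k a3 : ℝ) := by
  unfold FF
  rw [mA_eq hn]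
  simp only [List.nodup_cons, List.mem_cons, not_or] at hn
  rw [Finset.sum_insert, Finset.sum_insert, Finset.sum_singleton]
  · ring
  · simpa using hn.2.1.1
  · simp [hn.1.1, hn.1.2.1]

end Pool.Agent.Helper822.Sphere
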