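import Mathlib
set_option autoImplicit false
namespace Pool.Agent.Helper822.Sphere
open Set Filter Topology

lemma elem_bound {κ u w : ℝ} (hκ : 0.7637 ≤ κ) (hκ' : κ ≤ 0.7638) (hd : (u + w - κ) ^ 2 ≤ 8 / 1000000)
    (hu : -(1 / 1000000) ≤ u) (hw : -(1 / 1000000) ≤ w) (hp : u * w ≤ 12 / 1000000) :
    (w ≤ 0.001 ∧ 0.7597 ≤ u ∧ u ≤ 0.7669) ∨ (u ≤ 0.001 ∧ 0.001 < w ∧ 0.7597 ≤ w ∧ w ≤ 0.7669) := by
  have h1 : |u + w - κ| ≤ 0.0029 := by
    apply abs_le_of_sq_le_sq' (by norm_num at hd ⊢; linarith) (by norm_num) |> abs_le.2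
  rw [abs_le] at h1
  obtain ⟨h2, h3⟩ := h1
  by_cases hw1 : w ≤ 0.001
  · left
    refine ⟨hw1, ?_, ?_⟩ <;> linarith
  · right
    push Not at hw1
    have hu1 : u ≤ 0.001 := by
      by_contra hcon
      push Not at hcon
      rcases le_total u w with h | h
      · have : 0.38 ≤ w := by linarith
        nlinarith
      · have : 0.38 ≤ u := by linarith
        nlinarith
    refine ⟨hu1, hw1, ?_, ?_⟩ <;> linarith

/-- Nearly extremal pairs are close to a critical pair. -/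
lemma far {x y : Fin 7 → ℝ} (hx : ∑ i, x i = 0) (hy : ∑ i, y i = 0) (nx : ∑ i, x i ^ 2 = 1)
    (ny : ∑ i, y i ^ 2 = 1) (hxy : ∑ i, x i * y i ≤ -(3 / 4)) (j : Fin 7)
    (mx : ∀ i, x i ≤ x j + 1 / 1000000) (my : ∀ i, y i ≤ y j + 1 / 1000000) :
    ∃ A B : Finset (Fin 7), A.card = 3 ∧ B.card = 3 ∧ j ∉ A ∧ j ∉ B ∧ Disjoint A B ∧
      (∀ i ∈ A, -0.447 ≤ x i ∧ x i ≤ -0.426) ∧ (∀ i, i ∉ A → 0.317 ≤ x i ∧ x i ≤ 0.338) ∧
      (∀ i ∈ B, -0.447 ≤ y i ∧ y i ≤ -0.426) ∧ (∀ i, i ∉ B → 0.317 ≤ y i ∧ y i ≤ 0.338) := by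
  classical
  set s : Finset (Fin 7) := Finset.univ.erase j with hs
  have hscard : s.card = 6 := by
    rw [hs, Finset.card_erase_of_mem (Finset.mem_univ j)]; simp
  have hsplit : ∀ f : Fin 7 → ℝ, ∑ i, f i = f j + ∑ i ∈ s, f i := fun f =>
    (Finset.add_sum_erase _ f (Finset.mem_univ j)).symm
  rw [hsplit] at hx hy nx ny hxy
  set u : Fin 7 → ℝ := fun i => x j - x i with hu
  set w : Fin 7 → ℝ := fun i => y j - y i with hw
  have hxu : ∀ i, x i = x j - u i := fun i => by simp [hu]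
  have hyw : ∀ i, y i = y j - w i := fun i => by simp [hw]
  set U := ∑ i ∈ s, u i with hU
  set V := ∑ i ∈ s, w i with hV
  set P := ∑ i ∈ s, u i * w i with hP
  have hU7 : U = 7 * x j := by
    rw [hU]; simp only [hu]; rw [Finset.sum_sub_distrib, Finset.sum_const, hscard]
    simp only [nsmul_eq_mul]; push_cast; linarith
  have hV7 : V = 7 * y j := by
    rw [hV]; simp only [hw]; rw [Finset.sum_sub_distrib, Finset.sum_const, hscard]
    simp only [nsmul_eq_mul]; push_cast; linarith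
  have hUU : ∑ i ∈ s, u i ^ 2 = 1 + U ^ 2 / 7 := by
    have h1 : ∑ i ∈ s, x i ^ 2 = ∑ i ∈ s, (x j ^ 2 - 2 * x j * u i + u i ^ 2) :=
      Finset.sum_congr rfl fun i _ => by rw [hxu i]; ring
    rw [Finset.sum_add_distrib, Finset.sum_sub_distrib, Finset.sum_const, hscard,
      ← Finset.mul_sum, ← hU] at h1
    simp only [nsmul_eq_mul] at h1
    push_cast at h1
    rw [h1, hU7] at nx
    rw [hU7]
    linarith
  have hVV : ∑ i ∈ s, w i ^ 2 = 1 + V ^ 2 / 7 := by
    have h1 : ∑ i ∈ s, y i ^ 2 = ∑ i ∈ s, (y j ^ 2 - 2 * y j * w i + w i ^ 2) :=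
      Finset.sum_congr rfl fun i _ => by rw [hyw i]; ring
    rw [Finset.sum_add_distrib, Finset.sum_sub_distrib, Finset.sum_const, hscard,
      ← Finset.mul_sum, ← hV] at h1
    simp only [nsmul_eq_mul] at h1
    push_cast at h1
    rw [h1, hV7] at ny
    rw [hV7]
    linarith
  have hPle : P ≤ U * V / 7 - 3 / 4 := by
    have h1 : ∑ i ∈ s, x i * y i = ∑ i ∈ s, (x j * y j - x j * w i - y j * u i + u i * w i) :=
      Finset.sum_congr rfl fun i _ => by rw [hxu i, hyw i]; ring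
    rw [Finset.sum_add_distrib, Finset.sum_sub_distrib, Finset.sum_sub_distrib, Finset.sum_const,
      hscard, ← Finset.mul_sum, ← Finset.mul_sum, ← hU, ← hV, ← hP] at h1
    simp only [nsmul_eq_mul] at h1
    push_cast at h1
    rw [h1, hU7, hV7] at hxy
    rw [hU7, hV7]
    linarith
  -- bounds on single entries
  have hx1 : ∀ i, |x i| ≤ 1 := by
    intro i
    have h1 : x i ^ 2 ≤ 1 := by
      rw [← nx, ← hsplit (fun i => x i ^ 2)]
      exact Finset.single_le_sum (f := fun i => x i ^ 2) (fun i _ => sq_nonneg _) (Finset.mem_univ i)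
    rw [← sq_abs] at h1
    have := abs_nonneg (x i)
    nlinarith
  have hy1 : ∀ i, |y i| ≤ 1 := by
    intro i
    have h1 : y i ^ 2 ≤ 1 := by
      rw [← ny, ← hsplit (fun i => y i ^ 2)]
      exact Finset.single_le_sum (f := fun i => y i ^ 2) (fun i _ => sq_nonneg _) (Finset.mem_univ i)
    rw [← sq_abs] at h1
    have := abs_nonneg (y i)
    nlinarith
  have hul : ∀ i, -(1 / 1000000) ≤ u i := fun i => by simp only [hu]; linarith [mx i]
  have hwl : ∀ i, -(1 / 1000000) ≤ w i := fun i => by simp only [hw]; linarith [my i]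
  have huh : ∀ i, u i ≤ 2 := fun i => by
    simp only [hu]
    have h1 := (abs_le.1 (hx1 i)).1
    have h2 := (abs_le.1 (hx1 j)).2
    linarith
  have hwh : ∀ i, w i ≤ 2 := fun i => by
    simp only [hw]
    have h1 := (abs_le.1 (hy1 i)).1
    have h2 := (abs_le.1 (hy1 j)).2
    linarith
  have hprod : ∀ i, -(2 / 1000000) ≤ u i * w i := by
    intro i
    have h1 := hul i
    have h2 := hwl i
    have h3 := huh i
    have h4 := hwh i
    rcases le_total 0 (u i) with h | h <;> rcases le_total 0 (w i) with h' | h'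
    · nlinarith [mul_nonneg h h']
    · nlinarith
    · nlinarith
    · nlinarith [mul_nonneg_of_nonpos_of_nonpos h h']
  have hPge : -(12 / 1000000) ≤ P := by
    have h1 : ∑ i ∈ s, (-(2 / 1000000) : ℝ) ≤ P := Finset.sum_le_sum fun i _ => hprod i
    rw [Finset.sum_const, hscard] at h1
    simp only [nsmul_eq_mul] at h1
    push_cast at h1
    linarith
  set T := U + V with hT
  set κ := T / 6 with hκ
  have hdev : ∑ i ∈ s, (u i + w i - κ) ^ 2 = 2 + (U ^ 2 + V ^ 2) / 7 + 2 * P - T ^ 2 / 6 := by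
    have h1 : ∑ i ∈ s, (u i + w i - κ) ^ 2 =
        ∑ i ∈ s, (u i ^ 2 + w i ^ 2 + 2 * (u i * w i) - 2 * κ * u i - 2 * κ * w i + κ ^ 2) :=
      Finset.sum_congr rfl fun i _ => by ring
    rw [h1, Finset.sum_add_distrib, Finset.sum_sub_distrib, Finset.sum_sub_distrib,
      Finset.sum_add_distrib, Finset.sum_add_distrib, hUU, hVV, ← Finset.mul_sum, ← Finset.mul_sum,
      ← Finset.mul_sum, ← hU, ← hV, ← hP, Finset.sum_const, hscard, hκ, hT]
    simp only [nsmul_eq_mul]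
    push_cast
    ring
  have hdev0 : 0 ≤ ∑ i ∈ s, (u i + w i - κ) ^ 2 := Finset.sum_nonneg fun i _ => sq_nonneg _
  have hdevle : ∑ i ∈ s, (u i + w i - κ) ^ 2 ≤ 1 / 2 - T ^ 2 / 42 := by
    rw [hdev, hT]; nlinarith only [hPle]
  have hT21 : T ^ 2 ≤ 21 := by linarith
  have hUV : 21 / 4 - 84 / 1000000 ≤ U * V := by linarith
  have hsqd : (U - V) ^ 2 ≤ 336 / 1000000 := by
    have : (U - V) ^ 2 = T ^ 2 - 4 * (U * V) := by rw [hT]; ring
    rw [this]; linarith only [hT21, hUV]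
  have hTlow : 21 - 336 / 1000000 ≤ T ^ 2 := by
    have : T ^ 2 = (U - V) ^ 2 + 4 * (U * V) := by rw [hT]; ring
    rw [this]; nlinarith only [sq_nonneg (U - V), hUV]
  have hTpos : 0 < T := by
    have h1 : -(12 / 1000000 : ℝ) ≤ T := by
      have h2 : ∑ i ∈ s, (-(1 / 1000000) : ℝ) ≤ U := Finset.sum_le_sum fun i _ => hul i
      have h3 : ∑ i ∈ s, (-(1 / 1000000) : ℝ) ≤ V := Finset.sum_le_sum fun i _ => hwl i
      rw [Finset.sum_const, hscard] at h2 h3
      simp only [nsmul_eq_mul] at h2 h3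
      push_cast at h2 h3
      linarith
    by_contra hcon
    push Not at hcon
    nlinarith only [hcon, h1, hTlow]
  have hT1 : 4.5825 ≤ T := by
    by_contra hcon
    push Not at hcon
    nlinarith only [hcon, hTlow, hTpos]
  have hT2 : T ≤ 4.5826 := by
    by_contra hcon
    push Not at hcon
    nlinarith only [hcon, hT21, hTpos]
  have hκ1 : 0.7637 ≤ κ := by rw [hκ]; linarith
  have hκ2 : κ ≤ 0.7638 := by rw [hκ]; linarith
  have hP0 : P ≤ 0 := by nlinarith only [sq_nonneg (U - V), hPle, hT21, hT]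
  have hone : ∀ i ∈ s, (u i + w i - κ) ^ 2 ≤ 8 / 1000000 := by
    intro i hi
    have h1 : (u i + w i - κ) ^ 2 ≤ ∑ i ∈ s, (u i + w i - κ) ^ 2 :=
      Finset.single_le_sum (f := fun i => (u i + w i - κ) ^ 2) (fun i _ => sq_nonneg _) hi
    linarith only [h1, hdevle, hTlow]
  have hprod2 : ∀ i ∈ s, u i * w i ≤ 12 / 1000000 := by
    intro i hi
    have h1 : u i * w i + ∑ k ∈ s.erase i, u k * w k = P :=
      Finset.add_sum_erase s (fun k => u k * w k) hi
    have h2 : ∑ k ∈ s.erase i, (-(2 / 1000000) : ℝ) ≤ ∑ k ∈ s.erase i, u k * w k :=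
      Finset.sum_le_sum fun k _ => hprod k
    rw [Finset.sum_const, Finset.card_erase_of_mem hi, hscard] at h2
    simp only [nsmul_eq_mul] at h2
    push_cast at h2
    norm_num at h2 ⊢
    linarith
  have helem := fun i (hi : i ∈ s) => elem_bound hκ1 hκ2 (hone i hi) (hul i) (hwl i) (hprod2 i hi)
  set A := s.filter fun i => w i ≤ 0.001 with hA
  set B := s.filter fun i => ¬ w i ≤ 0.001 with hB
  have hAm : ∀ i ∈ A, 0.7597 ≤ u i ∧ u i ≤ 0.7669 ∧ w i ≤ 0.001 := by
    intro i hi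
    rw [hA, Finset.mem_filter] at hi
    rcases helem i hi.1 with h | h
    · exact ⟨h.2.1, h.2.2, h.1⟩
    · exact absurd hi.2 (not_le.2 h.2.1)
  have hBm : ∀ i ∈ B, 0.7597 ≤ w i ∧ w i ≤ 0.7669 ∧ u i ≤ 0.001 := by
    intro i hi
    rw [hB, Finset.mem_filter] at hi
    rcases helem i hi.1 with h | h
    · exact absurd h.1 hi.2
    · exact ⟨h.2.2.1, h.2.2.2, h.1⟩
  have hcard : A.card + B.card = 6 := by
    rw [← hscard]; exact Finset.card_filter_add_card_filter_not _
  have hsumsplit : ∀ f : Fin 7 → ℝ, ∑ i ∈ s, f i = ∑ i ∈ A, f i + ∑ i ∈ B, f i := fun f =>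
    (Finset.sum_filter_add_sum_filter_not s _ f).symm
  have hUA1 : 0.7597 * A.card ≤ ∑ i ∈ A, u i := by
    have : ∑ i ∈ A, (0.7597 : ℝ) ≤ ∑ i ∈ A, u i := Finset.sum_le_sum fun i hi => (hAm i hi).1
    rw [Finset.sum_const, nsmul_eq_mul] at this; linarith
  have hUA2 : ∑ i ∈ A, u i ≤ 0.7669 * A.card := by
    have : ∑ i ∈ A, u i ≤ ∑ i ∈ A, (0.7669 : ℝ) := Finset.sum_le_sum fun i hi => (hAm i hi).2.1
    rw [Finset.sum_const, nsmul_eq_mul] at this; linarith
  have hUB1 : -(1 / 1000000) * B.card ≤ ∑ i ∈ B, u i := by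
    have : ∑ i ∈ B, (-(1 / 1000000) : ℝ) ≤ ∑ i ∈ B, u i := Finset.sum_le_sum fun i hi => hul i
    rw [Finset.sum_const, nsmul_eq_mul] at this; linarith
  have hUB2 : ∑ i ∈ B, u i ≤ 0.001 * B.card := by
    have : ∑ i ∈ B, u i ≤ ∑ i ∈ B, (0.001 : ℝ) := Finset.sum_le_sum fun i hi => (hBm i hi).2.2
    rw [Finset.sum_const, nsmul_eq_mul] at this; linarith
  have hVB1 : 0.7597 * B.card ≤ ∑ i ∈ B, w i := by
    have : ∑ i ∈ B, (0.7597 : ℝ) ≤ ∑ i ∈ B, w i := Finset.sum_le_sum fun i hi => (hBm i hi).1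
    rw [Finset.sum_const, nsmul_eq_mul] at this; linarith
  have hVB2 : ∑ i ∈ B, w i ≤ 0.7669 * B.card := by
    have : ∑ i ∈ B, w i ≤ ∑ i ∈ B, (0.7669 : ℝ) := Finset.sum_le_sum fun i hi => (hBm i hi).2.1
    rw [Finset.sum_const, nsmul_eq_mul] at this; linarith
  have hVA1 : -(1 / 1000000) * A.card ≤ ∑ i ∈ A, w i := by
    have : ∑ i ∈ A, (-(1 / 1000000) : ℝ) ≤ ∑ i ∈ A, w i := Finset.sum_le_sum fun i hi => hwl i
    rw [Finset.sum_const, nsmul_eq_mul] at this; linarith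
  have hVA2 : ∑ i ∈ A, w i ≤ 0.001 * A.card := by
    have : ∑ i ∈ A, w i ≤ ∑ i ∈ A, (0.001 : ℝ) := Finset.sum_le_sum fun i hi => (hAm i hi).2.2
    rw [Finset.sum_const, nsmul_eq_mul] at this; linarith
  have hUs := hsumsplit u
  have hVs := hsumsplit w
  rw [← hU] at hUs
  rw [← hV] at hVs
  have hcardR : (A.card : ℝ) + B.card = 6 := by exact_mod_cast hcard
  have hUVd : -0.02 ≤ U - V ∧ U - V ≤ 0.02 :=
    abs_le_of_sq_le_sq' (by norm_num at hsqd ⊢; linarith only [hsqd]) (by norm_num)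
  obtain ⟨hUVd2, hUVd1⟩ := hUVd
  have hA3 : A.card = 3 := by
    have h1 : A.card ≤ 3 := by
      by_contra hcon
      have h2 : 4 ≤ A.card := by omega
      have h3 : (4 : ℝ) ≤ A.card := by exact_mod_cast h2
      linarith
    have h2 : 3 ≤ A.card := by
      by_contra hcon
      have h2 : A.card ≤ 2 := by omega
      have h3 : (A.card : ℝ) ≤ 2 := by exact_mod_cast h2
      linarith
    omega
  have hB3 : B.card = 3 := by omega
  have hA3' : (A.card : ℝ) = 3 := by exact_mod_cast hA3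
  have hB3' : (B.card : ℝ) = 3 := by exact_mod_cast hB3
  rw [hA3'] at hUA1 hUA2 hVA1 hVA2
  rw [hB3'] at hUB1 hUB2 hVB1 hVB2
  have hxj1 : 0.3255 ≤ x j := by linarith
  have hxj2 : x j ≤ 0.3296 := by linarith
  have hyj1 : 0.3255 ≤ y j := by linarith
  have hyj2 : y j ≤ 0.3296 := by linarith
  have hjA : j ∉ A := by simp [hA, hs]
  have hjB : j ∉ B := by simp [hB, hs]
  have hAB : Disjoint A B := by
    rw [Finset.disjoint_left]
    intro i hi hi'
    rw [hA, Finset.mem_filter] at hi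
    rw [hB, Finset.mem_filter] at hi'
    exact hi'.2 hi.2
  have hcov : ∀ i, i = j ∨ i ∈ A ∨ i ∈ B := by
    intro i
    by_cases hij : i = j
    · left; exact hij
    · right
      have his : i ∈ s := by simp [hs, hij]
      by_cases h : w i ≤ 0.001
      · left; rw [hA, Finset.mem_filter]; exact ⟨his, h⟩
      · right; rw [hB, Finset.mem_filter]; exact ⟨his, h⟩
  refine ⟨A, B, hA3, hB3, hjA, hjB, hAB, ?_, ?_, ?_, ?_⟩
  · intro i hi
    have h1 := hAm i hi
    rw [hxu i]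
    constructor <;> linarith [h1.1, h1.2.1]
  · intro i hi
    rcases hcov i with rfl | h | h
    · constructor <;> linarith
    · exact absurd h hi
    · have h1 := hBm i h
      have h2 := hul i
      rw [hxu i]
      constructor <;> linarith [h1.2.2]
  · intro i hi
    have h1 := hBm i hi
    rw [hyw i]
    constructor <;> linarith [h1.1, h1.2.1]
  · intro i hi
    rcases hcov i with rfl | h | h
    · constructor <;> linarith
    · have h1 := hAm i h
      have h2 := hwl i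
      rw [hyw i]
      constructor <;> linarith [h1.2.2]
    · exact absurd h hi

end Pool.Agent.Helper822.Sphere
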