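import Mathlib
set_option autoImplicit false
namespace Pool.Agent.Helper822.Sphere
open Set Filter Topology

/-! ### The local inequality -/

lemma dominated {ε w u v : ℝ} (hε : 0 < ε) (hε1 : ε ≤ 1 / 100) (hw : |w| ≤ 4) :
    ε * (w * (u * v)) ≤ 1 / 50 * (u ^ 2 + v ^ 2) := by
  have h1 : w * (u * v) ≤ |w| * |u * v| := by
    rw [← abs_mul]; exact le_abs_self _
  have h2 : |u * v| ≤ (u ^ 2 + v ^ 2) / 2 := by
    rw [abs_le]; constructor <;> nlinarith [sq_nonneg (u + v), sq_nonneg (u - v)]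
  have h3 : |w| * |u * v| ≤ 4 * ((u ^ 2 + v ^ 2) / 2) :=
    mul_le_mul hw h2 (abs_nonneg _) (by norm_num)
  have h4 : w * (u * v) ≤ 2 * (u ^ 2 + v ^ 2) := by linarith
  have h5 : 0 ≤ u ^ 2 + v ^ 2 := by positivity
  calc ε * (w * (u * v)) ≤ ε * (2 * (u ^ 2 + v ^ 2)) := by
        apply mul_le_mul_of_nonneg_left h4 hε.le
    _ ≤ 1 / 100 * (2 * (u ^ 2 + v ^ 2)) := by
        apply mul_le_mul_of_nonneg_right hε1 (by positivity)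
    _ = 1 / 50 * (u ^ 2 + v ^ 2) := by ring

/-- The local inequality, in terms of 7 coordinates: `1,2,3` is the set `A`, `4,5,6` is the set `B`
and `7` is the index of the cell. -/
lemma local_core {ε : ℝ} (hε : 0 < ε) (hε1 : ε ≤ 1 / 100)
    {x1 x2 x3 x4 x5 x6 x7 y1 y2 y3 y4 y5 y6 y7 : ℝ}
    (hx : x1 + x2 + x3 + x4 + x5 + x6 + x7 = 0) (hy : y1 + y2 + y3 + y4 + y5 + y6 + y7 = 0)
    {p41 p42 p43 p51 p52 p53 p61 p62 p63 p71 p72 p73 : ℝ}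
    {q14 q15 q16 q24 q25 q26 q34 q35 q36 q74 q75 q76 : ℝ}
    (hp1 : p41 + p51 + p61 + p71 = 0) (hp2 : p42 + p52 + p62 + p72 = 0)
    (hp3 : p43 + p53 + p63 + p73 = 0)
    (hq4 : q14 + q24 + q34 + q74 = 0) (hq5 : q15 + q25 + q35 + q75 = 0)
    (hq6 : q16 + q26 + q36 + q76 = 0)
    {w14 w15 w16 w24 w25 w26 w34 w35 w36 : ℝ}
    (e14 : w14 = q14 + p41) (e15 : w15 = q15 + p51) (e16 : w16 = q16 + p61)
    (e24 : w24 = q24 + p42) (e25 : w25 = q25 + p52) (e26 : w26 = q26 + p62)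
    (e34 : w34 = q34 + p43) (e35 : w35 = q35 + p53) (e36 : w36 = q36 + p63)
    (hw1 : w14 + w15 + w16 = 0) (hw2 : w24 + w25 + w26 = 0) (hw3 : w34 + w35 + w36 = 0)
    (hw4 : w14 + w24 + w34 = 0) (hw5 : w15 + w25 + w35 = 0) (hw6 : w16 + w26 + w36 = 0)
    (b14 : |w14| ≤ 4) (b15 : |w15| ≤ 4) (b16 : |w16| ≤ 4) (b24 : |w24| ≤ 4) (b25 : |w25| ≤ 4)
    (b26 : |w26| ≤ 4) (b34 : |w34| ≤ 4) (b35 : |w35| ≤ 4) (b36 : |w36| ≤ 4)
    {m m' X1 X2 X3 Y4 Y5 Y6 : ℝ} (hm : m = (x4 + x5 + x6 + x7) / 4)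
    (hm' : m' = (y1 + y2 + y3 + y7) / 4)
    (hX1 : X1 = x1 - m) (hX2 : X2 = x2 - m) (hX3 : X3 = x3 - m)
    (hY4 : Y4 = y4 - m') (hY5 : Y5 = y5 - m') (hY6 : Y6 = y6 - m')
    {F4 F5 F6 F7 G1 G2 G3 G7 : ℝ}
    (hF4 : F4 = X1 * p41 + X2 * p42 + X3 * p43) (hF5 : F5 = X1 * p51 + X2 * p52 + X3 * p53)
    (hF6 : F6 = X1 * p61 + X2 * p62 + X3 * p63) (hF7 : F7 = X1 * p71 + X2 * p72 + X3 * p73)
    (hG1 : G1 = Y4 * q14 + Y5 * q15 + Y6 * q16) (hG2 : G2 = Y4 * q24 + Y5 * q25 + Y6 * q26)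
    (hG3 : G3 = Y4 * q34 + Y5 * q35 + Y6 * q36) (hG7 : G7 = Y4 * q74 + Y5 * q75 + Y6 * q76)
    (c4 : x4 + ε * F4 ≤ x7 + ε * F7) (c5 : x5 + ε * F5 ≤ x7 + ε * F7)
    (c6 : x6 + ε * F6 ≤ x7 + ε * F7)
    (c1 : y1 + ε * G1 ≤ y7 + ε * G7) (c2 : y2 + ε * G2 ≤ y7 + ε * G7)
    (c3 : y3 + ε * G3 ≤ y7 + ε * G7)
    (r1 : 4 * X1 < X1 + X2 + X3) (r2 : 4 * X2 < X1 + X2 + X3) (r3 : 4 * X3 < X1 + X2 + X3)
    (r4 : 4 * Y4 < Y4 + Y5 + Y6) (r5 : 4 * Y5 < Y4 + Y5 + Y6) (r6 : 4 * Y6 < Y4 + Y5 + Y6)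
    (hstrict : ¬ ((3 * (p41 + p42 + p43) + (p71 + p72 + p73) = 0 ∧
        3 * (p51 + p52 + p53) + (p71 + p72 + p73) = 0 ∧
        3 * (p61 + p62 + p63) + (p71 + p72 + p73) = 0) ∧
      (3 * (q14 + q15 + q16) + (q74 + q75 + q76) = 0 ∧
        3 * (q24 + q25 + q26) + (q74 + q75 + q76) = 0 ∧
        3 * (q34 + q35 + q36) + (q74 + q75 + q76) = 0))) :
    0 < 3 / 8 * ((x1 ^ 2 + x2 ^ 2 + x3 ^ 2 + x4 ^ 2 + x5 ^ 2 + x6 ^ 2 + x7 ^ 2) +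
      (y1 ^ 2 + y2 ^ 2 + y3 ^ 2 + y4 ^ 2 + y5 ^ 2 + y6 ^ 2 + y7 ^ 2)) +
      (x1 * y1 + x2 * y2 + x3 * y3 + x4 * y4 + x5 * y5 + x6 * y6 + x7 * y7) := by
  -- abbreviations
  set a := X1 + X2 + X3 with ha
  set b := Y4 + Y5 + Y6 with hb
  have ha7 : a = -7 * m := by rw [ha, hX1, hX2, hX3, hm]; linarith only [hx]
  have hb7 : b = -7 * m' := by rw [hb, hY4, hY5, hY6, hm']; linarith only [hy]
  have hFsum : F4 + F5 + F6 + F7 = 0 := by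
    rw [hF4, hF5, hF6, hF7]
    linear_combination X1 * hp1 + X2 * hp2 + X3 * hp3
  have hGsum : G1 + G2 + G3 + G7 = 0 := by
    rw [hG1, hG2, hG3, hG7]
    linear_combination Y4 * hq4 + Y5 * hq5 + Y6 * hq6
  -- the deviations
  obtain ⟨g4, hg4⟩ : ∃ g4, g4 = x4 - m := ⟨_, rfl⟩
  obtain ⟨g5, hg5⟩ : ∃ g5, g5 = x5 - m := ⟨_, rfl⟩
  obtain ⟨g6, hg6⟩ : ∃ g6, g6 = x6 - m := ⟨_, rfl⟩
  obtain ⟨g7, hg7⟩ : ∃ g7, g7 = x7 - m := ⟨_, rfl⟩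
  obtain ⟨k1, hk1⟩ : ∃ k1, k1 = y1 - m' := ⟨_, rfl⟩
  obtain ⟨k2, hk2⟩ : ∃ k2, k2 = y2 - m' := ⟨_, rfl⟩
  obtain ⟨k3, hk3⟩ : ∃ k3, k3 = y3 - m' := ⟨_, rfl⟩
  obtain ⟨k7, hk7⟩ : ∃ k7, k7 = y7 - m' := ⟨_, rfl⟩
  have hgsum : g4 + g5 + g6 + g7 = 0 := by rw [hg4, hg5, hg6, hg7, hm]; ring
  have hksum : k1 + k2 + k3 + k7 = 0 := by rw [hk1, hk2, hk3, hk7, hm']; ring
  obtain ⟨d4, hd4⟩ : ∃ d4, d4 = (x7 + ε * F7) - (x4 + ε * F4) := ⟨_, rfl⟩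
  obtain ⟨d5, hd5⟩ : ∃ d5, d5 = (x7 + ε * F7) - (x5 + ε * F5) := ⟨_, rfl⟩
  obtain ⟨d6, hd6⟩ : ∃ d6, d6 = (x7 + ε * F7) - (x6 + ε * F6) := ⟨_, rfl⟩
  obtain ⟨d1, hd1⟩ : ∃ d1, d1 = (y7 + ε * G7) - (y1 + ε * G1) := ⟨_, rfl⟩
  obtain ⟨d2, hd2⟩ : ∃ d2, d2 = (y7 + ε * G7) - (y2 + ε * G2) := ⟨_, rfl⟩
  obtain ⟨d3, hd3⟩ : ∃ d3, d3 = (y7 + ε * G7) - (y3 + ε * G3) := ⟨_, rfl⟩
  have q4 : 0 ≤ d4 := by rw [hd4]; exact sub_nonneg.2 c4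
  have q5 : 0 ≤ d5 := by rw [hd5]; exact sub_nonneg.2 c5
  have q6 : 0 ≤ d6 := by rw [hd6]; exact sub_nonneg.2 c6
  have q1 : 0 ≤ d1 := by rw [hd1]; exact sub_nonneg.2 c1
  have q2 : 0 ≤ d2 := by rw [hd2]; exact sub_nonneg.2 c2
  have q3 : 0 ≤ d3 := by rw [hd3]; exact sub_nonneg.2 c3
  -- the identity, step 1
  have id1 : 3 / 8 * ((x1 ^ 2 + x2 ^ 2 + x3 ^ 2 + x4 ^ 2 + x5 ^ 2 + x6 ^ 2 + x7 ^ 2) +
      (y1 ^ 2 + y2 ^ 2 + y3 ^ 2 + y4 ^ 2 + y5 ^ 2 + y6 ^ 2 + y7 ^ 2)) +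
      (x1 * y1 + x2 * y2 + x3 * y3 + x4 * y4 + x5 * y5 + x6 * y6 + x7 * y7) =
      3 / 8 * ((X1 - a / 3) ^ 2 + (X2 - a / 3) ^ 2 + (X3 - a / 3) ^ 2 +
        ((Y4 - b / 3) ^ 2 + (Y5 - b / 3) ^ 2 + (Y6 - b / 3) ^ 2)) + 1 / 14 * (a - b) ^ 2 +
      1 / 2 * (g7 + k7) ^ 2 + 3 / 8 * (((g4 + g7 / 3) ^ 2 + (g5 + g7 / 3) ^ 2 + (g6 + g7 / 3) ^ 2) +
        ((k1 + k7 / 3) ^ 2 + (k2 + k7 / 3) ^ 2 + (k3 + k7 / 3) ^ 2)) +
      (X1 * k1 + X2 * k2 + X3 * k3) + (Y4 * g4 + Y5 * g5 + Y6 * g6) := by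
    have hx1 : x1 = X1 - a / 7 := by rw [ha7, hX1]; ring
    have hx2 : x2 = X2 - a / 7 := by rw [ha7, hX2]; ring
    have hx3 : x3 = X3 - a / 7 := by rw [ha7, hX3]; ring
    have hx4 : x4 = g4 - a / 7 := by rw [ha7, hg4]; ring
    have hx5 : x5 = g5 - a / 7 := by rw [ha7, hg5]; ring
    have hx6 : x6 = g6 - a / 7 := by rw [ha7, hg6]; ring
    have hx7 : x7 = g7 - a / 7 := by rw [ha7, hg7]; ring
    have hy1 : y1 = k1 - b / 7 := by rw [hb7, hk1]; ring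
    have hy2 : y2 = k2 - b / 7 := by rw [hb7, hk2]; ring
    have hy3 : y3 = k3 - b / 7 := by rw [hb7, hk3]; ring
    have hy7 : y7 = k7 - b / 7 := by rw [hb7, hk7]; ring
    have hy4 : y4 = Y4 - b / 7 := by rw [hb7, hY4]; ring
    have hy5 : y5 = Y5 - b / 7 := by rw [hb7, hY5]; ring
    have hy6 : y6 = Y6 - b / 7 := by rw [hb7, hY6]; ring
    have hg4' : g4 = -(g5 + g6 + g7) := by linarith only [hgsum]
    have hk1' : k1 = -(k2 + k3 + k7) := by linarith only [hksum]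
    rw [hx1, hx2, hx3, hx4, hx5, hx6, hx7, hy1, hy2, hy3, hy7, hy4, hy5, hy6, hg4', hk1', ha, hb]
    ring
  have id2 : X1 * k1 + X2 * k2 + X3 * k3 = (-X1 + a / 4) * d1 + (-X2 + a / 4) * d2 +
      (-X3 + a / 4) * d3 - ε * (X1 * G1 + X2 * G2 + X3 * G3) := by
    have e1 : d1 = k7 - k1 + ε * (G7 - G1) := by rw [hd1, hk7, hk1]; ring
    have e2 : d2 = k7 - k2 + ε * (G7 - G2) := by rw [hd2, hk7, hk2]; ring
    have e3 : d3 = k7 - k3 + ε * (G7 - G3) := by rw [hd3, hk7, hk3]; ring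
    rw [e1, e2, e3, ha]
    linear_combination (1 / 4) * (X1 + X2 + X3) * hksum + (ε / 4) * (X1 + X2 + X3) * hGsum
  have id3 : Y4 * g4 + Y5 * g5 + Y6 * g6 = (-Y4 + b / 4) * d4 + (-Y5 + b / 4) * d5 +
      (-Y6 + b / 4) * d6 - ε * (Y4 * F4 + Y5 * F5 + Y6 * F6) := by
    have e1 : d4 = g7 - g4 + ε * (F7 - F4) := by rw [hd4, hg7, hg4]; ring
    have e2 : d5 = g7 - g5 + ε * (F7 - F5) := by rw [hd5, hg7, hg5]; ring
    have e3 : d6 = g7 - g6 + ε * (F7 - F6) := by rw [hd6, hg7, hg6]; ring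
    rw [e1, e2, e3, hb]
    linear_combination (1 / 4) * (Y4 + Y5 + Y6) * hgsum + (ε / 4) * (Y4 + Y5 + Y6) * hFsum
  obtain ⟨u1, hu1⟩ : ∃ u1, u1 = X1 - a / 3 := ⟨_, rfl⟩
  obtain ⟨u2, hu2⟩ : ∃ u2, u2 = X2 - a / 3 := ⟨_, rfl⟩
  obtain ⟨u3, hu3⟩ : ∃ u3, u3 = X3 - a / 3 := ⟨_, rfl⟩
  obtain ⟨v4, hv4⟩ : ∃ v4, v4 = Y4 - b / 3 := ⟨_, rfl⟩
  obtain ⟨v5, hv5⟩ : ∃ v5, v5 = Y5 - b / 3 := ⟨_, rfl⟩
  obtain ⟨v6, hv6⟩ : ∃ v6, v6 = Y6 - b / 3 := ⟨_, rfl⟩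
  have id4 : (X1 * G1 + X2 * G2 + X3 * G3) + (Y4 * F4 + Y5 * F5 + Y6 * F6) =
      w14 * (u1 * v4) + w15 * (u1 * v5) + w16 * (u1 * v6) + w24 * (u2 * v4) + w25 * (u2 * v5) +
      w26 * (u2 * v6) + w34 * (u3 * v4) + w35 * (u3 * v5) + w36 * (u3 * v6) := by
    have step : (X1 * G1 + X2 * G2 + X3 * G3) + (Y4 * F4 + Y5 * F5 + Y6 * F6) =
      w14 * (X1 * Y4) + w15 * (X1 * Y5) + w16 * (X1 * Y6) + w24 * (X2 * Y4) + w25 * (X2 * Y5) +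
      w26 * (X2 * Y6) + w34 * (X3 * Y4) + w35 * (X3 * Y5) + w36 * (X3 * Y6) := by
      rw [hG1, hG2, hG3, hF4, hF5, hF6, e14, e15, e16, e24, e25, e26, e34, e35, e36]; ring
    rw [step, hu1, hu2, hu3, hv4, hv5, hv6]
    linear_combination (b / 3) * (X1 * hw1 + X2 * hw2 + X3 * hw3) +
      (a / 3) * (Y4 * hw4 + Y5 * hw5 + Y6 * hw6) - (a / 3) * (b / 3) * (hw1 + hw2 + hw3)
  -- the perturbation term is dominated
  have hdom := fun w u v : ℝ => dominated (w := w) (u := u) (v := v) hε hε1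
  have hpert : ε * ((X1 * G1 + X2 * G2 + X3 * G3) + (Y4 * F4 + Y5 * F5 + Y6 * F6)) ≤
      3 / 50 * (u1 ^ 2 + u2 ^ 2 + u3 ^ 2 + (v4 ^ 2 + v5 ^ 2 + v6 ^ 2)) := by
    rw [id4]
    have t1 := hdom w14 u1 v4 b14
    have t2 := hdom w15 u1 v5 b15
    have t3 := hdom w16 u1 v6 b16
    have t4 := hdom w24 u2 v4 b24
    have t5 := hdom w25 u2 v5 b25
    have t6 := hdom w26 u2 v6 b26
    have t7 := hdom w34 u3 v4 b34
    have t8 := hdom w35 u3 v5 b35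
    have t9 := hdom w36 u3 v6 b36
    have e : ε * (w14 * (u1 * v4) + w15 * (u1 * v5) + w16 * (u1 * v6) + w24 * (u2 * v4) +
        w25 * (u2 * v5) + w26 * (u2 * v6) + w34 * (u3 * v4) + w35 * (u3 * v5) +
        w36 * (u3 * v6)) = ε * (w14 * (u1 * v4)) + ε * (w15 * (u1 * v5)) +
        ε * (w16 * (u1 * v6)) + ε * (w24 * (u2 * v4)) + ε * (w25 * (u2 * v5)) +
        ε * (w26 * (u2 * v6)) + ε * (w34 * (u3 * v4)) + ε * (w35 * (u3 * v5)) +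
        ε * (w36 * (u3 * v6)) := by ring
    rw [e]
    linarith only [t1, t2, t3, t4, t5, t6, t7, t8, t9]
  -- sizes
  have s1 : 0 < -X1 + a / 4 := by linarith only [r1]
  have s2 : 0 < -X2 + a / 4 := by linarith only [r2]
  have s3 : 0 < -X3 + a / 4 := by linarith only [r3]
  have s4 : 0 < -Y4 + b / 4 := by linarith only [r4]
  have s5 : 0 < -Y5 + b / 4 := by linarith only [r5]
  have s6 : 0 < -Y6 + b / 4 := by linarith only [r6]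
  have ha0 : a < 0 := by linarith only [r1, r2, r3, ha]
  have hb0 : b < 0 := by linarith only [r4, r5, r6, hb]
  have z1 := mul_nonneg s1.le q1
  have z2 := mul_nonneg s2.le q2
  have z3 := mul_nonneg s3.le q3
  have z4 := mul_nonneg s4.le q4
  have z5 := mul_nonneg s5.le q5
  have z6 := mul_nonneg s6.le q6
  rw [id1, id2, id3, ← hu1, ← hu2, ← hu3, ← hv4, ← hv5, ← hv6]
  by_contra hcon
  push Not at hcon
  have n1 := sq_nonneg u1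
  have n2 := sq_nonneg u2
  have n3 := sq_nonneg u3
  have n4 := sq_nonneg v4
  have n5 := sq_nonneg v5
  have n6 := sq_nonneg v6
  have n7 := sq_nonneg (a - b)
  have n8 := sq_nonneg (g7 + k7)
  have n9 := sq_nonneg (g4 + g7 / 3)
  have n10 := sq_nonneg (g5 + g7 / 3)
  have n11 := sq_nonneg (g6 + g7 / 3)
  have n12 := sq_nonneg (k1 + k7 / 3)
  have n13 := sq_nonneg (k2 + k7 / 3)
  have n14 := sq_nonneg (k3 + k7 / 3)
  obtain ⟨U, hU⟩ : ∃ U, U = u1 ^ 2 + u2 ^ 2 + u3 ^ 2 + (v4 ^ 2 + v5 ^ 2 + v6 ^ 2) := ⟨_, rfl⟩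
  obtain ⟨V, hV⟩ : ∃ V, V = (g4 + g7 / 3) ^ 2 + (g5 + g7 / 3) ^ 2 + (g6 + g7 / 3) ^ 2 +
        ((k1 + k7 / 3) ^ 2 + (k2 + k7 / 3) ^ 2 + (k3 + k7 / 3) ^ 2) := ⟨_, rfl⟩
  obtain ⟨Z, hZ⟩ : ∃ Z, Z = ((-X1 + a / 4) * d1 + (-X2 + a / 4) * d2 + (-X3 + a / 4) * d3) +
      ((-Y4 + b / 4) * d4 + (-Y5 + b / 4) * d5 + (-Y6 + b / 4) * d6) := ⟨_, rfl⟩
  have hU0 : 0 ≤ U := by rw [hU]; linarith only [n1, n2, n3, n4, n5, n6]
  have hV0 : 0 ≤ V := by rw [hV]; linarith only [n9, n10, n11, n12, n13, n14]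
  have hZ0 : 0 ≤ Z := by rw [hZ]; linarith only [z1, z2, z3, z4, z5, z6]
  have tot : 3 / 8 * U + 1 / 14 * (a - b) ^ 2 + 1 / 2 * (g7 + k7) ^ 2 + 3 / 8 * V + Z ≤
      3 / 50 * U := by
    rw [← hU] at hpert hcon
    rw [← hV] at hcon
    linarith only [hpert, hcon, hZ]
  have hU1 : U ≤ 0 := by linarith only [tot, hU0, hV0, hZ0, n7, n8]
  have hV1 : V ≤ 0 := by linarith only [tot, hU0, hV0, hZ0, n7, n8]
  have hZ1 : Z ≤ 0 := by linarith only [tot, hU0, hV0, hZ0, n7, n8]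
  rw [hU] at hU1
  rw [hV] at hV1
  rw [hZ] at hZ1
  have zero : ∀ r : ℝ, r ^ 2 ≤ 0 → r = 0 := fun r hr => by
    have := sq_nonneg r
    exact pow_eq_zero_iff (two_ne_zero) |>.1 (le_antisymm hr this)
  have o1 : u1 = 0 := zero _ (by linarith only [hU1, n1, n2, n3, n4, n5, n6])
  have o2 : u2 = 0 := zero _ (by linarith only [hU1, n1, n2, n3, n4, n5, n6])
  have o3 : u3 = 0 := zero _ (by linarith only [hU1, n1, n2, n3, n4, n5, n6])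
  have o4 : v4 = 0 := zero _ (by linarith only [hU1, n1, n2, n3, n4, n5, n6])
  have o5 : v5 = 0 := zero _ (by linarith only [hU1, n1, n2, n3, n4, n5, n6])
  have o6 : v6 = 0 := zero _ (by linarith only [hU1, n1, n2, n3, n4, n5, n6])
  have o9 : g4 + g7 / 3 = 0 := zero _ (by linarith only [hV1, n9, n10, n11, n12, n13, n14])
  have o10 : g5 + g7 / 3 = 0 := zero _ (by linarith only [hV1, n9, n10, n11, n12, n13, n14])
  have o11 : g6 + g7 / 3 = 0 := zero _ (by linarith only [hV1, n9, n10, n11, n12, n13, n14])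
  have o12 : k1 + k7 / 3 = 0 := zero _ (by linarith only [hV1, n9, n10, n11, n12, n13, n14])
  have o13 : k2 + k7 / 3 = 0 := zero _ (by linarith only [hV1, n9, n10, n11, n12, n13, n14])
  have o14 : k3 + k7 / 3 = 0 := zero _ (by linarith only [hV1, n9, n10, n11, n12, n13, n14])
  have f1 : d1 = 0 := (mul_eq_zero.1 (le_antisymm (by
    linarith only [hZ1, z1, z2, z3, z4, z5, z6]) z1)).resolve_left s1.ne'
  have f2 : d2 = 0 := (mul_eq_zero.1 (le_antisymm (by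
    linarith only [hZ1, z1, z2, z3, z4, z5, z6]) z2)).resolve_left s2.ne'
  have f3 : d3 = 0 := (mul_eq_zero.1 (le_antisymm (by
    linarith only [hZ1, z1, z2, z3, z4, z5, z6]) z3)).resolve_left s3.ne'
  have f4 : d4 = 0 := (mul_eq_zero.1 (le_antisymm (by
    linarith only [hZ1, z1, z2, z3, z4, z5, z6]) z4)).resolve_left s4.ne'
  have f5 : d5 = 0 := (mul_eq_zero.1 (le_antisymm (by
    linarith only [hZ1, z1, z2, z3, z4, z5, z6]) z5)).resolve_left s5.ne'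
  have f6 : d6 = 0 := (mul_eq_zero.1 (le_antisymm (by
    linarith only [hZ1, z1, z2, z3, z4, z5, z6]) z6)).resolve_left s6.ne'
  apply hstrict
  have X1' : X1 = a / 3 := by linarith only [o1, hu1]
  have X2' : X2 = a / 3 := by linarith only [o2, hu2]
  have X3' : X3 = a / 3 := by linarith only [o3, hu3]
  have Y4' : Y4 = b / 3 := by linarith only [o4, hv4]
  have Y5' : Y5 = b / 3 := by linarith only [o5, hv5]
  have Y6' : Y6 = b / 3 := by linarith only [o6, hv6]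
  have cancel : ∀ r c : ℝ, c < 0 → ε * (c * r) = 0 → r = 0 := by
    intro r c hc h
    rcases mul_eq_zero.1 h with h1 | h1
    · exact absurd h1 hε.ne'
    · exact (mul_eq_zero.1 h1).resolve_left hc.ne
  -- F differences
  have F4' : F7 - F4 = (a / 3) * ((p71 + p72 + p73) - (p41 + p42 + p43)) := by
    rw [hF7, hF4, X1', X2', X3']; ring
  have F5' : F7 - F5 = (a / 3) * ((p71 + p72 + p73) - (p51 + p52 + p53)) := by
    rw [hF7, hF5, X1', X2', X3']; ring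
  have F6' : F7 - F6 = (a / 3) * ((p71 + p72 + p73) - (p61 + p62 + p63)) := by
    rw [hF7, hF6, X1', X2', X3']; ring
  have G1' : G7 - G1 = (b / 3) * ((q74 + q75 + q76) - (q14 + q15 + q16)) := by
    rw [hG7, hG1, Y4', Y5', Y6']; ring
  have G2' : G7 - G2 = (b / 3) * ((q74 + q75 + q76) - (q24 + q25 + q26)) := by
    rw [hG7, hG2, Y4', Y5', Y6']; ring
  have G3' : G7 - G3 = (b / 3) * ((q74 + q75 + q76) - (q34 + q35 + q36)) := by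
    rw [hG7, hG3, Y4', Y5', Y6']; ring
  have D4 : g7 - g4 + ε * (F7 - F4) = 0 := by rw [← f4, hd4, hg7, hg4]; ring
  have D5 : g7 - g5 + ε * (F7 - F5) = 0 := by rw [← f5, hd5, hg7, hg5]; ring
  have D6 : g7 - g6 + ε * (F7 - F6) = 0 := by rw [← f6, hd6, hg7, hg6]; ring
  have D1 : k7 - k1 + ε * (G7 - G1) = 0 := by rw [← f1, hd1, hk7, hk1]; ring
  have D2 : k7 - k2 + ε * (G7 - G2) = 0 := by rw [← f2, hd2, hk7, hk2]; ring
  have D3 : k7 - k3 + ε * (G7 - G3) = 0 := by rw [← f3, hd3, hk7, hk3]; ring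
  rw [F4'] at D4
  rw [F5'] at D5
  rw [F6'] at D6
  rw [G1'] at D1
  rw [G2'] at D2
  rw [G3'] at D3
  have psum : (p41 + p42 + p43) + (p51 + p52 + p53) + (p61 + p62 + p63) + (p71 + p72 + p73) = 0 := by
    linarith only [hp1, hp2, hp3]
  have qsum : (q14 + q15 + q16) + (q24 + q25 + q26) + (q34 + q35 + q36) + (q74 + q75 + q76) = 0 := by
    linarith only [hq4, hq5, hq6]
  have e45 : (p41 + p42 + p43) - (p51 + p52 + p53) = 0 :=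
    cancel _ (a / 3) (by linarith only [ha0]) (by linear_combination D5 - D4 + o10 - o9)
  have e46 : (p41 + p42 + p43) - (p61 + p62 + p63) = 0 :=
    cancel _ (a / 3) (by linarith only [ha0]) (by linear_combination D6 - D4 + o11 - o9)
  have e12 : (q14 + q15 + q16) - (q24 + q25 + q26) = 0 :=
    cancel _ (b / 3) (by linarith only [hb0]) (by linear_combination D2 - D1 + o13 - o12)
  have e13 : (q14 + q15 + q16) - (q34 + q35 + q36) = 0 :=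
    cancel _ (b / 3) (by linarith only [hb0]) (by linear_combination D3 - D1 + o14 - o12)
  refine ⟨⟨?_, ?_, ?_⟩, ?_, ?_, ?_⟩ <;> linarith only [psum, qsum, e45, e46, e12, e13]

end Pool.Agent.Helper822.Sphere
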