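import Mathlib
import Pool.Agent.Helper822.SphereLocal
import Pool.Agent.Helper822.SphereFar
import Pool.Agent.Helper822.SphereCells
set_option autoImplicit false
namespace Pool.Agent.Helper822.Sphere
open Set Filter Topology

/-- Two points of the same cell are never nearly antipodal. -/
lemma pair_bound {x y : Fin 7 → ℝ} (hx : ∑ i, x i = 0) (hy : ∑ i, y i = 0)
    (nx : ∑ i, x i ^ 2 = 1) (ny : ∑ i, y i ^ 2 = 1) (j : Fin 7)
    (cx : Type1 j x ∨ Type0 j x) (cy : Type1 j y ∨ Type0 j y) :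
    -(3 / 4) < ∑ i, x i * y i := by
  by_contra hcon
  push Not at hcon
  have hx1 : ∀ i, |x i| ≤ 1 := by
    intro i
    have h1 : x i ^ 2 ≤ 1 := by
      rw [← nx]
      exact Finset.single_le_sum (f := fun i => x i ^ 2) (fun i _ => sq_nonneg _) (Finset.mem_univ i)
    rw [← sq_abs] at h1
    have := abs_nonneg (x i)
    nlinarith only [h1, this]
  have hy1 : ∀ i, |y i| ≤ 1 := by
    intro i
    have h1 : y i ^ 2 ≤ 1 := by
      rw [← ny]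
      exact Finset.single_le_sum (f := fun i => y i ^ 2) (fun i _ => sq_nonneg _) (Finset.mem_univ i)
    rw [← sq_abs] at h1
    have := abs_nonneg (y i)
    nlinarith only [h1, this]
  obtain ⟨A, B, hA, hB, hjA, hjB, hAB, xA, xnA, yB, ynB⟩ :=
    far hx hy nx ny hcon j (cell_approx hx1 cx) (cell_approx hy1 cy)
  have ccx := cell_pattern hA (fun i hi => by linarith [(xA i hi).2])
    (fun i hi => by linarith [(xnA i hi).1]) cx
  have ccy := cell_pattern hB (fun i hi => by linarith [(yB i hi).2])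
    (fun i hi => by linarith [(ynB i hi).1]) cy
  obtain ⟨a1, a2, a3, ha12, ha23, rfl⟩ := exists_sorted A hA
  obtain ⟨b1, b2, b3, hb12, hb23, rfl⟩ := exists_sorted B hB
  simp only [Finset.disjoint_insert_left, Finset.disjoint_singleton_left, Finset.mem_insert,
    Finset.mem_singleton, not_or] at hAB hjA hjB
  obtain ⟨⟨n11, n12, n13⟩, ⟨n21, n22, n23⟩, ⟨n31, n32, n33⟩⟩ := hAB
  obtain ⟨j1, j2, j3⟩ := hjA
  obtain ⟨j4, j5, j6⟩ := hjB
  have ha13 : a1 < a3 := ha12.trans ha23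
  have hb13 : b1 < b3 := hb12.trans hb23
  have hn : [a1, a2, a3, b1, b2, b3, j].Nodup := by
    simp only [List.nodup_cons, List.mem_cons, List.not_mem_nil, or_false, not_or,
      not_false_eq_true, List.nodup_nil, and_true]
    exact ⟨⟨ha12.ne, ha13.ne, n11, n12, n13, Ne.symm j1⟩, ⟨ha23.ne, n21, n22, n23, Ne.symm j2⟩,
      ⟨n31, n32, n33, Ne.symm j3⟩, ⟨hb12.ne, hb13.ne, Ne.symm j4⟩, ⟨hb23.ne, Ne.symm j5⟩,
      Ne.symm j6⟩
  have hn' : [b1, b2, b3, a1, a2, a3, j].Nodup := by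
    simp only [List.nodup_cons, List.mem_cons, List.not_mem_nil, or_false, not_or,
      not_false_eq_true, List.nodup_nil, and_true]
    exact ⟨⟨hb12.ne, hb13.ne, Ne.symm n11, Ne.symm n21, Ne.symm n31, Ne.symm j4⟩,
      ⟨hb23.ne, Ne.symm n12, Ne.symm n22, Ne.symm n32, Ne.symm j5⟩,
      ⟨Ne.symm n13, Ne.symm n23, Ne.symm n33, Ne.symm j6⟩, ⟨ha12.ne, ha13.ne, Ne.symm j1⟩,
      ⟨ha23.ne, Ne.symm j2⟩, Ne.symm j3⟩
  have hcond : Cond a1 a2 a3 b1 b2 b3 j :=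
    check_all a1 a2 a3 ⟨ha12, ha23⟩ b1 b2 b3 ⟨hb12, hb23, Ne.symm n11, Ne.symm n21, Ne.symm n31,
      Ne.symm n12, Ne.symm n22, Ne.symm n32, Ne.symm n13, Ne.symm n23, Ne.symm n33⟩ j
      ⟨j1, j2, j3, j4, j5, j6⟩
  obtain ⟨⟨t1, t2, t3⟩, ⟨t4, t5, t6⟩, ⟨t7, t8, t9⟩, ⟨t10, t11, t12⟩, t13⟩ := hcond
  rw [sum_seven hn] at hx hy nx ny hcon
  have wb : ∀ a b : ℤ, |a| ≤ 2 → |b| ≤ 2 → |(a : ℝ) + b| ≤ 4 := by
    intro a b h1 h2
    have h1' : |(a : ℝ)| ≤ 2 := by exact_mod_cast h1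
    have h2' : |(b : ℝ)| ≤ 2 := by exact_mod_cast h2
    have := abs_add_le (a : ℝ) b
    linarith only [h1', h2', this]
  have hA1 := xA a1 (by simp)
  have hA2 := xA a2 (by simp)
  have hA3 := xA a3 (by simp)
  have hB1 := xnA b1 (by simp [Ne.symm n11, Ne.symm n21, Ne.symm n31])
  have hB2 := xnA b2 (by simp [Ne.symm n12, Ne.symm n22, Ne.symm n32])
  have hB3 := xnA b3 (by simp [Ne.symm n13, Ne.symm n23, Ne.symm n33])
  have hJ := xnA j (by simp [j1, j2, j3])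
  have gB1 := yB b1 (by simp)
  have gB2 := yB b2 (by simp)
  have gB3 := yB b3 (by simp)
  have gA1 := ynB a1 (by simp [n11, n12, n13])
  have gA2 := ynB a2 (by simp [n21, n22, n23])
  have gA3 := ynB a3 (by simp [n31, n32, n33])
  have gJ := ynB j (by simp [j4, j5, j6])
  have cx4 := ccx b1 (by simp [Ne.symm n11, Ne.symm n21, Ne.symm n31])
  have cx5 := ccx b2 (by simp [Ne.symm n12, Ne.symm n22, Ne.symm n32])
  have cx6 := ccx b3 (by simp [Ne.symm n13, Ne.symm n23, Ne.symm n33])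
  have cy1 := ccy a1 (by simp [n11, n12, n13])
  have cy2 := ccy a2 (by simp [n21, n22, n23])
  have cy3 := ccy a3 (by simp [n31, n32, n33])
  simp only [FF_eq hn] at cx4 cx5 cx6
  simp only [FF_eq hn'] at cy1 cy2 cy3
  have hmain := local_core (ε := eps) (by unfold eps; norm_num) (by unfold eps; norm_num)
    hx hy
    (p41 := (P {a1, a2, a3} b1 a1 : ℝ)) (p42 := (P {a1, a2, a3} b1 a2 : ℝ))
    (p43 := (P {a1, a2, a3} b1 a3 : ℝ)) (p51 := (P {a1, a2, a3} b2 a1 : ℝ))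
    (p52 := (P {a1, a2, a3} b2 a2 : ℝ)) (p53 := (P {a1, a2, a3} b2 a3 : ℝ))
    (p61 := (P {a1, a2, a3} b3 a1 : ℝ)) (p62 := (P {a1, a2, a3} b3 a2 : ℝ))
    (p63 := (P {a1, a2, a3} b3 a3 : ℝ)) (p71 := (P {a1, a2, a3} j a1 : ℝ))
    (p72 := (P {a1, a2, a3} j a2 : ℝ)) (p73 := (P {a1, a2, a3} j a3 : ℝ))
    (q14 := (P {b1, b2, b3} a1 b1 : ℝ)) (q15 := (P {b1, b2, b3} a1 b2 : ℝ))
    (q16 := (P {b1, b2, b3} a1 b3 : ℝ)) (q24 := (P {b1, b2, b3} a2 b1 : ℝ))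
    (q25 := (P {b1, b2, b3} a2 b2 : ℝ)) (q26 := (P {b1, b2, b3} a2 b3 : ℝ))
    (q34 := (P {b1, b2, b3} a3 b1 : ℝ)) (q35 := (P {b1, b2, b3} a3 b2 : ℝ))
    (q36 := (P {b1, b2, b3} a3 b3 : ℝ)) (q74 := (P {b1, b2, b3} j b1 : ℝ))
    (q75 := (P {b1, b2, b3} j b2 : ℝ)) (q76 := (P {b1, b2, b3} j b3 : ℝ))
    (by exact_mod_cast t1) (by exact_mod_cast t2) (by exact_mod_cast t3)
    (by exact_mod_cast t4) (by exact_mod_cast t5) (by exact_mod_cast t6)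
    rfl rfl rfl rfl rfl rfl rfl rfl rfl
    (by exact_mod_cast t7) (by exact_mod_cast t8) (by exact_mod_cast t9)
    (by exact_mod_cast t10) (by exact_mod_cast t11) (by exact_mod_cast t12)
    (wb _ _ (P_bound _ _ _) (P_bound _ _ _)) (wb _ _ (P_bound _ _ _) (P_bound _ _ _))
    (wb _ _ (P_bound _ _ _) (P_bound _ _ _)) (wb _ _ (P_bound _ _ _) (P_bound _ _ _))
    (wb _ _ (P_bound _ _ _) (P_bound _ _ _)) (wb _ _ (P_bound _ _ _) (P_bound _ _ _))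
    (wb _ _ (P_bound _ _ _) (P_bound _ _ _)) (wb _ _ (P_bound _ _ _) (P_bound _ _ _))
    (wb _ _ (P_bound _ _ _) (P_bound _ _ _))
    rfl rfl rfl rfl rfl rfl rfl rfl rfl rfl rfl rfl rfl rfl rfl rfl
    cx4 cx5 cx6 (by convert cy1 using 3 <;> ring) (by convert cy2 using 3 <;> ring)
    (by convert cy3 using 3 <;> ring)
    (by linarith only [hA1.1, hA1.2, hA2.1, hA2.2, hA3.1, hA3.2, hB1.1, hB1.2, hB2.1, hB2.2, hB3.1, hB3.2, hJ.1, hJ.2])
    (by linarith only [hA1.1, hA1.2, hA2.1, hA2.2, hA3.1, hA3.2, hB1.1, hB1.2, hB2.1, hB2.2, hB3.1, hB3.2, hJ.1, hJ.2])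
    (by linarith only [hA1.1, hA1.2, hA2.1, hA2.2, hA3.1, hA3.2, hB1.1, hB1.2, hB2.1, hB2.2, hB3.1, hB3.2, hJ.1, hJ.2])
    (by linarith only [gA1.1, gA1.2, gA2.1, gA2.2, gA3.1, gA3.2, gB1.1, gB1.2, gB2.1, gB2.2, gB3.1, gB3.2, gJ.1, gJ.2])
    (by linarith only [gA1.1, gA1.2, gA2.1, gA2.2, gA3.1, gA3.2, gB1.1, gB1.2, gB2.1, gB2.2, gB3.1, gB3.2, gJ.1, gJ.2])
    (by linarith only [gA1.1, gA1.2, gA2.1, gA2.2, gA3.1, gA3.2, gB1.1, gB1.2, gB2.1, gB2.2, gB3.1, gB3.2, gJ.1, gJ.2])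
    (by
      intro h
      apply t13
      obtain ⟨⟨h1, h2, h3⟩, h4, h5, h6⟩ := h
      refine ⟨⟨?_, ?_, ?_⟩, ?_, ?_, ?_⟩
      · exact_mod_cast h1
      · exact_mod_cast h2
      · exact_mod_cast h3
      · exact_mod_cast h4
      · exact_mod_cast h5
      · exact_mod_cast h6)
  linarith only [hmain, nx, ny, hcon]

end Pool.Agent.Helper822.Sphere
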